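import Mathlib
import Pool.Agent.W128.VA.Stm

/-! VA-CRE and VA-GOD -/

set_option autoImplicit false

namespace Pool.Agent.W933.VA.Cre

open Pool.Agent.W128.VA Finset

theorem cf_zero (k : ℤ) : cf k 0 = 1 := by
  unfold cf
  rw [Ring.choose_zero_right]
  simp

theorem cre : S_CRE := by
  intro W _ _ one a b ha hb k
  constructor
  · intro n hn
    show R a b k 0 n one = 0
    rw [R_apply' a b k 0 n one 0 (fun j _ => hb _ (by omega)) (fun j _ => ha _ (by omega))]
    simp
  · show R a b k 0 (-1) one = _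
    rw [R_apply' a b k 0 (-1) one 1 (fun j hj => hb _ (by omega)) (fun j _ => ha _ (by omega))]
    rw [sum_range_one]
    unfold tm
    rw [cf_zero, one_smul, ha (0 + ((0 : ℕ) : ℤ)) (by omega), map_zero, smul_zero, sub_zero]
    have e1 : (0 : ℤ) + k - ((0 : ℕ) : ℤ) = k := by simp
    have e2 : (-1 : ℤ) + ((0 : ℕ) : ℤ) = -1 := by simp
    rw [e1, e2]

theorem god : S_GOD := by
  intro W _ _ one T a b hT hcov ha0 ha1 hb0 hloc n
  have hneg : ∀ i : ℕ, a (-1 - (i : ℤ)) one = 0 := by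
    intro i
    induction i with
    | zero => simpa using ha1
    | succ i ih =>
      have h1 := hcov (-1 - (i : ℤ)) one
      rw [ih, hT, map_zero, map_zero, sub_zero] at h1
      have e : (-1 : ℤ) - (i : ℤ) - 1 = -1 - ((i + 1 : ℕ) : ℤ) := by push_cast; ring
      rw [e] at h1
      rcases smul_eq_zero.1 h1.symm with h2 | h2
      · exfalso
        have h3 : ((-1 - (i : ℤ) : ℤ) : ℂ) = 0 := by linear_combination -h2
        have h4 : (-1 - (i : ℤ) : ℤ) = 0 := by exact_mod_cast h3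
        omega
      · exact h2
  have hall : ∀ n : ℤ, a n one = 0 := by
    intro n
    rcases le_or_gt 0 n with h | h
    · exact ha0 n h
    · have h1 := hneg (-1 - n).toNat
      have e : -1 - (((-1 - n).toNat : ℕ) : ℤ) = n := by omega
      rwa [e] at h1
  obtain ⟨N, hN⟩ := hloc
  have h1 := hN (n - N) (-1) one
  rw [sum_range_succ'] at h1
  have h2 : ∀ j ∈ range N, ((-1 : ℂ) ^ (j + 1) * (N.choose (j + 1) : ℂ)) •
      (a (n - N + N - ((j + 1 : ℕ) : ℤ)) (b (-1 + ((j + 1 : ℕ) : ℤ)) one) -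
        b (-1 + ((j + 1 : ℕ) : ℤ)) (a (n - N + N - ((j + 1 : ℕ) : ℤ)) one)) = 0 := by
    intro j _
    rw [hall, hb0 (-1 + ((j + 1 : ℕ) : ℤ)) (by omega)]
    simp
  rw [sum_congr rfl h2, sum_const_zero, zero_add, hall] at h1
  have e1 : n - (N : ℤ) + N - ((0 : ℕ) : ℤ) = n := by simp
  have e2 : (-1 : ℤ) + ((0 : ℕ) : ℤ) = -1 := by simp
  rw [e1, e2] at h1
  simpa using h1

theorem main : S_CRE ∧ S_GOD := ⟨cre, god⟩

end Pool.Agent.W933.VA.Cre
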